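import Pool.Agent.H121.SH.Iface

/-!
Project SH (helper121), task SH-PAIR: removal of a pair of neighbours (2x2 Schur complement).
-/

set_option autoImplicit false

open scoped BigOperators InnerProductSpace Topology ENNReal
open Filter MeasureTheory

namespace Pool.Agent.H591.SH

open Pool.Agent.H121.SH

/-- the algebra of the double sum -/
lemma dsum {ι : Type} (E : Finset ι) (a A : ι → ℂ) (G1 G2 : ι → ι → ℂ) (g τ : ℂ) (x' : ι)
    (h00 : G1 x' x' = g) (h01 : ∀ w ∈ E, G1 x' w = -(g * A w)) (h10 : ∀ w ∈ E, G1 w x' = -(g * A w))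
    (h11 : ∀ w ∈ E, ∀ w' ∈ E, G1 w w' = G2 w w' + A w * A w' * g) :
    (τ * τ * G1 x' x' + ∑ w' ∈ E, τ * a w' * G1 x' w') +
      ∑ w ∈ E, (a w * τ * G1 w x' + ∑ w' ∈ E, a w * a w' * G1 w w') =
    (∑ w ∈ E, ∑ w' ∈ E, a w * a w' * G2 w w') + (τ - ∑ w ∈ E, a w * A w) ^ 2 * g := by
  have e1 : ∑ w' ∈ E, τ * a w' * G1 x' w' = -(τ * g * ∑ w ∈ E, a w * A w) := by
    rw [Finset.mul_sum, ← Finset.sum_neg_distrib]
    refine Finset.sum_congr rfl fun w hw => ?_
    rw [h01 w hw]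
    ring
  have e2 : ∑ w ∈ E, a w * τ * G1 w x' = -(τ * g * ∑ w ∈ E, a w * A w) := by
    rw [Finset.mul_sum, ← Finset.sum_neg_distrib]
    refine Finset.sum_congr rfl fun w hw => ?_
    rw [h10 w hw]
    ring
  have e3 : ∑ w ∈ E, ∑ w' ∈ E, a w * a w' * G1 w w' =
      (∑ w ∈ E, ∑ w' ∈ E, a w * a w' * G2 w w') + (∑ w ∈ E, a w * A w) * (∑ w ∈ E, a w * A w) * g := by
    rw [Finset.sum_mul_sum, Finset.sum_mul, ← Finset.sum_add_distrib]
    refine Finset.sum_congr rfl fun w hw => ?_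
    rw [Finset.sum_mul, ← Finset.sum_add_distrib]
    refine Finset.sum_congr rfl fun w' hw' => ?_
    rw [h11 w hw w' hw']
    ring
  rw [Finset.sum_add_distrib, e1, e2, e3, h00]
  ring

theorem pair (h : S_sch) : S_pair := by
  classical
  intro ι K t N hG V Ω z hz x x' y hx hxN hx'Ω hyx
  have hxx : x' ≠ x := by
    intro e
    rw [e] at hxN
    exact hG.nx x hxN
  have hset : Ω \ {x, x'} = (Ω \ {x}) \ {x'} := by
    ext p
    simp only [Set.mem_sdiff, Set.mem_insert_iff, Set.mem_singleton_iff]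
    tauto
  obtain ⟨-, -, -, f0⟩ := h ι K t N hG V Ω z hz
  obtain ⟨sy1, -, -, f1⟩ := h ι K t N hG V (Ω \ {x}) z hz
  obtain ⟨sy2, -, -, -⟩ := h ι K t N hG V (Ω \ {x, x'}) z hz
  obtain ⟨-, a1, a2, -⟩ := f0 x hx
  obtain ⟨-, b1, b2, b3⟩ := f1 x' ⟨hx'Ω, hxx⟩
  rw [← hset] at b1 b2 b3
  have hz2 : ∀ w, GR t V (Ω \ {x, x'}) z w x' = 0 := by
    intro w
    unfold GR
    rw [if_neg]
    rintro ⟨-, -, h2⟩
    exact h2 (by simp)
  set G1 : ι → ι → ℂ := GR t V (Ω \ {x}) z with hG1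
  set G2 : ι → ι → ℂ := GR t V (Ω \ {x, x'}) z with hG2
  set A : ι → ℂ := fun w => ∑ r ∈ N x', ((t x' r : ℝ) : ℂ) * G2 r w with hA
  set E : Finset ι := (N x).erase x' with hE
  have hEne : ∀ w ∈ E, w ≠ x' := fun w hw => Finset.ne_of_mem_erase hw
  have hqb : qb t N V (Ω \ {x, x'}) z x x' = ((t x x' : ℝ) : ℂ) - ∑ w ∈ E, ((t x w : ℝ) : ℂ) * A w := by
    unfold qb
    congr 1
    refine Finset.sum_congr rfl fun w _ => ?_
    rw [hA, Finset.mul_sum]
    refine Finset.sum_congr rfl fun r _ => ?_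
    rw [← hG2, sy2 w r]
    ring
  have k01 : ∀ w, w ≠ x' → G1 x' w = -(G1 x' x' * A w) := fun w hw => b2 w hw
  have k10 : ∀ w, w ≠ x' → G1 w x' = -(G1 x' x' * A w) := fun w hw => by
    rw [sy1 w x']
    exact b2 w hw
  have k11 : ∀ w w', w ≠ x' → w' ≠ x' → G1 w w' = G2 w w' + A w * A w' * G1 x' x' :=
    fun w w' hw hw' => b3 w w' hw hw'
  refine ⟨?_, ?_, ?_⟩
  · rw [← b1]
    unfold qB
    rw [← hG2]
    ring
  · rw [← a1]
    have e1 : ∑ w ∈ N x, ∑ w' ∈ N x, ((t x w : ℝ) : ℂ) * ((t x w' : ℝ) : ℂ) * G1 w w' =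
        qA t N V (Ω \ {x, x'}) z x x' + qb t N V (Ω \ {x, x'}) z x x' ^ 2 * G1 x' x' := by
      rw [hqb]
      have e2 := dsum E (fun w => ((t x w : ℝ) : ℂ)) A G1 G2 (G1 x' x') ((t x x' : ℝ) : ℂ) x' rfl
        (fun w hw => k01 w (hEne w hw)) (fun w hw => k10 w (hEne w hw))
        (fun w hw w' hw' => k11 w w' (hEne w hw) (hEne w' hw'))
      have e3 : qA t N V (Ω \ {x, x'}) z x x' =
          ∑ w ∈ E, ∑ w' ∈ E, ((t x w : ℝ) : ℂ) * ((t x w' : ℝ) : ℂ) * G2 w w' := rfl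
      rw [e3, ← e2, ← Finset.add_sum_erase (N x) _ hxN]
      congr 1
      · rw [← Finset.add_sum_erase (N x) _ hxN]
      · refine Finset.sum_congr rfl fun w _ => ?_
        rw [← Finset.add_sum_erase (N x) _ hxN]
    rw [e1]
    ring
  · rw [a2 y hyx, hqb, ← Finset.add_sum_erase (N x) _ hxN]
    by_cases hy : y = x'
    · have e1 : qa t N V (Ω \ {x, x'}) z x' y = -1 := by
        unfold qa
        rw [if_pos hy]
      have e2 : qR t N V (Ω \ {x, x'}) z x x' y = 0 := by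
        unfold qR
        rw [hy]
        refine Finset.sum_eq_zero fun w _ => ?_
        rw [← hG2, hz2 w, mul_zero]
      have e3 : ∑ w ∈ (N x).erase x', ((t x w : ℝ) : ℂ) * G1 w y =
          -(G1 x' x' * ∑ w ∈ E, ((t x w : ℝ) : ℂ) * A w) := by
        rw [Finset.mul_sum, ← Finset.sum_neg_distrib]
        refine Finset.sum_congr rfl fun w hw => ?_
        rw [hy, k10 w (hEne w hw)]
        ring
      rw [e1, e2, e3, hy]
      ring
    · have e1 : qa t N V (Ω \ {x, x'}) z x' y = A y := by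
        unfold qa
        rw [if_neg hy]
      have e3 : ∑ w ∈ (N x).erase x', ((t x w : ℝ) : ℂ) * G1 w y =
          qR t N V (Ω \ {x, x'}) z x x' y +
            (∑ w ∈ E, ((t x w : ℝ) : ℂ) * A w) * A y * G1 x' x' := by
        unfold qR
        rw [Finset.sum_mul, Finset.sum_mul, ← Finset.sum_add_distrib]
        refine Finset.sum_congr rfl fun w hw => ?_
        rw [k11 w y (hEne w hw) hy]
        ring
      rw [e1, e3, k01 y hy]
      ring

end Pool.Agent.H591.SH
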